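import Pool.Agent.Helper95.PN.Stmts

/-!
# Row MGB: the localized Morawetz function
-/

set_option autoImplicit false

namespace Pool.Agent.Helper95.PW

open MeasureTheory Filter Topology

theorem mgb_sq (y : R3) : nr y ^ 2 = y 0 ^ 2 + y 1 ^ 2 + y 2 ^ 2 := Real.sq_sqrt (by positivity)

theorem mgb_nn (y : R3) : 0 ≤ nr y := Real.sqrt_nonneg _

theorem mgb_cont : Continuous nr := by
  unfold nr
  fun_prop

theorem mgb_abs (y : R3) (i : Fin 3) : y i ^ 2 ≤ nr y ^ 2 := by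
  rw [mgb_sq]
  fin_cases i <;> simp <;> nlinarith [sq_nonneg (y 0), sq_nonneg (y 1), sq_nonneg (y 2)]

theorem mgb_norm (y : R3) : ‖y‖ ≤ nr y := by
  rw [pi_norm_le_iff_of_nonneg (mgb_nn y)]
  intro i
  rw [Real.norm_eq_abs]
  exact abs_le_of_sq_le_sq (mgb_abs y i) (mgb_nn y)

theorem mgb_smul {c : ℝ} (hc : 0 ≤ c) (y : R3) : nr (c • y) = c * nr y := by
  unfold nr
  have e : (c • y) 0 ^ 2 + (c • y) 1 ^ 2 + (c • y) 2 ^ 2 =
      c ^ 2 * (y 0 ^ 2 + y 1 ^ 2 + y 2 ^ 2) := by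
    simp only [Pi.smul_apply, smul_eq_mul]
    ring
  rw [e, Real.sqrt_mul (sq_nonneg c), Real.sqrt_sq hc]

theorem mgb_out {d s : ℝ} (hd : 0 < d) {y : R3} (hy : d ≤ nr y) : mg d s y = 0 := by
  unfold mg
  rw [Real.smoothTransition.zero_of_nonpos, mul_zero]
  rw [← mgb_sq]
  have h1 : d ^ 2 ≤ nr y ^ 2 := pow_le_pow_left₀ hd.le hy 2
  have h2 : 1 ≤ nr y ^ 2 / d ^ 2 := by
    rw [one_le_div (by positivity)]
    exact h1
  have e : 2 * nr y ^ 2 / d ^ 2 = 2 * (nr y ^ 2 / d ^ 2) := by ring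
  rw [e]
  linarith

theorem mgb_sm (d s : ℝ) (hs : 0 < s) : ContDiff ℝ (⊤ : ℕ∞) (mg d s) := by
  have hc : ∀ i : Fin 3, ContDiff ℝ (⊤ : ℕ∞) (fun y : R3 => y i) := fun i => contDiff_apply ℝ ℝ i
  have h0 : ContDiff ℝ (⊤ : ℕ∞) (fun y : R3 => y 0 ^ 2 + y 1 ^ 2 + y 2 ^ 2) :=
    (((hc 0).pow 2).add ((hc 1).pow 2)).add ((hc 2).pow 2)
  unfold mg
  apply ContDiff.mul
  · apply ContDiff.sqrt (h0.add contDiff_const)
    intro y
    positivity
  · exact Real.smoothTransition.contDiff.comp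
      (contDiff_const.sub ((contDiff_const.mul h0).div_const _))

theorem mgb_pd {g : R3 → ℝ} (hg : ContDiff ℝ (⊤ : ℕ∞) g) (i : Fin 3) :
    ContDiff ℝ (⊤ : ℕ∞) (pd i g) := by
  unfold pd
  exact (hg.fderiv_right (m := (⊤ : ℕ∞)) (by simp)).clm_apply contDiff_const

theorem mgb_ev {d s : ℝ} (hd : 0 < d) {y : R3} (hy : d < nr y) : mg d s =ᶠ[𝓝 y] 0 := by
  have h : {z | d < nr z} ∈ 𝓝 y := (isOpen_lt continuous_const mgb_cont).mem_nhds hy
  filter_upwards [h] with z hz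
  exact mgb_out hd (le_of_lt hz)

theorem mgb_pd0 {g : R3 → ℝ} {y : R3} (h : g =ᶠ[𝓝 y] 0) (i : Fin 3) : pd i g =ᶠ[𝓝 y] 0 := by
  have h2 := h.fderiv (𝕜 := ℝ)
  filter_upwards [h2] with z hz
  unfold pd
  rw [hz]
  simp

theorem mgb_lap0 {g : R3 → ℝ} {y : R3} (h : g =ᶠ[𝓝 y] 0) : lap g =ᶠ[𝓝 y] 0 := by
  filter_upwards [mgb_pd0 (mgb_pd0 h 0) 0, mgb_pd0 (mgb_pd0 h 1) 1, mgb_pd0 (mgb_pd0 h 2) 2]
    with z h0 h1 h2
  unfold lap
  rw [Fin.sum_univ_three, h0, h1, h2]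
  simp

theorem mgb_pp {d s : ℝ} (hd : 0 < d) (hs : 0 < s) (i l : Fin 3) {y : R3} (hy : d ≤ nr y) :
    pd i (pd l (mg d s)) y = 0 := by
  have hc : Continuous (pd i (pd l (mg d s))) := (mgb_pd (mgb_pd (mgb_sm d s hs) l) i).continuous
  have hseq : Tendsto (fun n : ℕ => (1 + 1 / ((n : ℝ) + 1)) • y) atTop (𝓝 y) := by
    have h1 : Tendsto (fun n : ℕ => (1 + 1 / ((n : ℝ) + 1))) atTop (𝓝 (1 + 0)) :=
      tendsto_const_nhds.add tendsto_one_div_add_atTop_nhds_zero_nat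
    have h2 := h1.smul_const y
    simpa using h2
  have h2 : Tendsto (fun n : ℕ => pd i (pd l (mg d s)) ((1 + 1 / ((n : ℝ) + 1)) • y)) atTop
      (𝓝 (pd i (pd l (mg d s)) y)) := (hc.tendsto y).comp hseq
  have h3 : ∀ n : ℕ, pd i (pd l (mg d s)) ((1 + 1 / ((n : ℝ) + 1)) • y) = 0 := by
    intro n
    have hn : (0 : ℝ) < 1 / ((n : ℝ) + 1) := by positivity
    have hy2 : d < nr ((1 + 1 / ((n : ℝ) + 1)) • y) := by
      rw [mgb_smul (by positivity)]
      nlinarith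
    exact (mgb_pd0 (mgb_pd0 (mgb_ev hd hy2) l) i).eq_of_nhds
  simp only [h3] at h2
  exact tendsto_nhds_unique h2 tendsto_const_nhds

theorem mgb_outd {d s : ℝ} (hd : 0 < d) (i : Fin 3) {y : R3} (hy : d ≤ nr y) :
    pd i (mg d s) y = 0 := by
  have hmin : IsLocalMin (mg d s) y := by
    apply Filter.Eventually.of_forall
    intro z
    rw [mgb_out hd hy]
    exact mul_nonneg (Real.sqrt_nonneg _) (Real.smoothTransition.nonneg _)
  unfold pd
  rw [hmin.fderiv_eq_zero]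
  simp

theorem mgb_mor {d s : ℝ} (hd : 0 < d) (hs : 0 < s) {y : R3} (hy : d / 2 ≤ nr y) :
    mor s y ≤ 30 / d ^ 2 * (1 / nr y) := by
  have hr : 0 < nr y := by linarith
  set q : ℝ := nr y ^ 2 + s ^ 2 with hq
  have hq0 : 0 < q := by positivity
  have e1 : q ^ (7 / 2 : ℝ) = q ^ 2 * q ^ (3 / 2 : ℝ) := by
    rw [← Real.rpow_natCast, ← Real.rpow_add hq0]
    norm_num
  have e2 : (nr y) ^ 3 ≤ q ^ (3 / 2 : ℝ) := by
    have h1 : (nr y ^ 2) ^ (3 / 2 : ℝ) ≤ q ^ (3 / 2 : ℝ) :=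
      Real.rpow_le_rpow (by positivity) (by rw [hq]; nlinarith [sq_nonneg s]) (by norm_num)
    have h2 : (nr y ^ 2) ^ (3 / 2 : ℝ) = nr y ^ 3 := by
      rw [← Real.rpow_natCast, ← Real.rpow_mul hr.le, ← Real.rpow_natCast]
      norm_num
    rwa [h2] at h1
  have e3 : s ^ 4 ≤ q ^ 2 := by
    rw [hq]
    nlinarith [sq_nonneg (nr y), sq_nonneg s, mul_nonneg (sq_nonneg (nr y)) (sq_nonneg s),
      sq_nonneg (nr y ^ 2)]
  unfold mor
  rw [← hq, e1]
  have e4 : 15 / 2 * s ^ 4 / (q ^ 2 * q ^ (3 / 2 : ℝ)) ≤ 15 / 2 / nr y ^ 3 := by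
    rw [div_le_div_iff₀ (by positivity) (by positivity)]
    have h5 : s ^ 4 * nr y ^ 3 ≤ q ^ 2 * q ^ (3 / 2 : ℝ) :=
      mul_le_mul e3 e2 (by positivity) (by positivity)
    nlinarith
  refine e4.trans ?_
  have e5 : 30 / d ^ 2 * (1 / nr y) = 30 / (d ^ 2 * nr y) := by
    field_simp
  rw [e5, div_le_div_iff₀ (by positivity) (by positivity)]
  have h6 : d ^ 2 ≤ 4 * nr y ^ 2 := by nlinarith
  have h7 : d ^ 2 * nr y ≤ 4 * nr y ^ 2 * nr y := mul_le_mul_of_nonneg_right h6 hr.le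
  nlinarith

theorem st_MGB (h1 : ST_CP) (h2 : ST_INN2) : ST_MGB := by
  intro d hd
  obtain ⟨A0, hA0, hCP⟩ := h1 d hd
  set A : ℝ := 4 + 3 * A0 + 3 * A0 * d + 30 / d ^ 2 + A0 * d with hA
  have hAd : 0 < A0 * d := by positivity
  have h30 : 0 < 30 / d ^ 2 := by positivity
  refine ⟨A, by rw [hA]; nlinarith, fun s hs hsd => ?_⟩
  have hAp : 0 < A := by rw [hA]; nlinarith
  have hrho : ∀ y : R3, 0 < Real.sqrt (nr y ^ 2 + s ^ 2) := fun y => by positivity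
  have hrho2 : ∀ y : R3, Real.sqrt (nr y ^ 2 + s ^ 2) ^ 2 = nr y ^ 2 + s ^ 2 := fun y =>
    Real.sq_sqrt (by positivity)
  refine ⟨mgb_sm d s hs, ?_, fun y hy => mgb_out hd hy, fun i y hy => mgb_outd hd i hy, ?_, ?_, ?_,
    ?_⟩
  · refine HasCompactSupport.intro (isCompact_closedBall (0 : R3) d) fun y hy => ?_
    apply mgb_out hd
    by_contra hlt
    push Not at hlt
    apply hy
    rw [mem_closedBall_zero_iff]
    exact (mgb_norm y).trans hlt.le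
  · intro i y
    rcases le_or_gt (d / 2) (nr y) with h | h
    · exact ((hCP s y hs hsd h).1 i).trans (by rw [hA]; nlinarith)
    · rw [(h2 d s y hs hd (by linarith)).1 i]
      have h3 : |y i / Real.sqrt (nr y ^ 2 + s ^ 2)| ≤ 1 := by
        rw [abs_div, abs_of_pos (hrho y), div_le_one (hrho y)]
        apply abs_le_of_sq_le_sq _ (hrho y).le
        rw [hrho2]
        nlinarith [mgb_abs y i, sq_nonneg s]
      exact h3.trans (by rw [hA]; nlinarith)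
  · intro y hy0
    have hr : 0 < nr y := lt_of_le_of_ne (mgb_nn y) (Ne.symm hy0)
    rcases le_or_gt d (nr y) with h | h
    · rw [if_neg (not_lt.2 h), mul_zero]
      unfold lap
      simp [mgb_pp hd hs _ _ h]
    rw [if_pos h]
    rcases le_or_gt (d / 2) (nr y) with h' | h'
    · have h3 := (hCP s y hs hsd h').2.1
      have h4 : |lap (mg d s) y| ≤ 3 * A0 := by
        unfold lap
        rw [Fin.sum_univ_three]
        have a0 := h3 0 0
        have a1 := h3 1 1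
        have a2 := h3 2 2
        rw [abs_le] at *
        constructor <;> linarith [a0.1, a0.2, a1.1, a1.2, a2.1, a2.2]
      refine h4.trans ?_
      rw [mul_one_div, le_div_iff₀ hr]
      have h5 : 3 * A0 * nr y ≤ 3 * A0 * d := mul_le_mul_of_nonneg_left h.le (by positivity)
      rw [hA]
      nlinarith
    · have h3 := (h2 d s y hs hd (by linarith)).2.1
      have h4 : lap (mg d s) y = 3 / Real.sqrt (nr y ^ 2 + s ^ 2) -
          nr y ^ 2 / Real.sqrt (nr y ^ 2 + s ^ 2) ^ 3 := by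
        unfold lap
        rw [Fin.sum_univ_three, h3 0 0, h3 1 1, h3 2 2]
        have e := mgb_sq y
        simp only [if_true]
        rw [show nr y ^ 2 / Real.sqrt (nr y ^ 2 + s ^ 2) ^ 3 =
          (y 0 ^ 2 + y 1 ^ 2 + y 2 ^ 2) / Real.sqrt (nr y ^ 2 + s ^ 2) ^ 3 by rw [← e]]
        ring
      rw [h4]
      set ρ := Real.sqrt (nr y ^ 2 + s ^ 2) with hρ
      have hρ0 : 0 < ρ := hrho y
      have hρr : nr y ≤ ρ := Real.le_sqrt_of_sq_le (by nlinarith [sq_nonneg s])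
      have h5 : nr y ^ 2 / ρ ^ 3 ≤ 1 / ρ := by
        rw [div_le_div_iff₀ (by positivity) hρ0]
        have : nr y ^ 2 ≤ ρ ^ 2 := pow_le_pow_left₀ (mgb_nn y) hρr 2
        nlinarith [mul_le_mul_of_nonneg_right this hρ0.le]
      have h6 : 0 ≤ nr y ^ 2 / ρ ^ 3 := by positivity
      have h7 : 1 / ρ ≤ 1 / nr y := one_div_le_one_div_of_le hr hρr
      have h8 : 0 < 1 / ρ := by positivity
      have h9 : 3 / ρ = 3 * (1 / ρ) := by ring
      have h10 : 3 * (1 / nr y) ≤ A * (1 / nr y) :=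
        mul_le_mul_of_nonneg_right (by rw [hA]; nlinarith) (by positivity)
      rw [abs_le]
      constructor <;> linarith
  · intro y ξ
    have hS : 0 ≤ ∑ i, ξ i ^ 2 := Finset.sum_nonneg fun i _ => sq_nonneg _
    rcases le_or_gt (d / 2) (nr y) with h' | h'
    · have h3 := (hCP s y hs hsd h').2.1
      have h4 : ∀ i l, -(A0 * (ξ i ^ 2 + ξ l ^ 2) / 2) ≤ pd i (pd l (mg d s)) y * ξ i * ξ l := by
        intro i l
        have h5 := h3 i l
        have h6 : |pd i (pd l (mg d s)) y * ξ i * ξ l| ≤ A0 * (ξ i ^ 2 + ξ l ^ 2) / 2 := by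
          rw [mul_assoc, abs_mul, abs_mul]
          have h7 : |ξ i| * |ξ l| ≤ (ξ i ^ 2 + ξ l ^ 2) / 2 := by
            nlinarith [sq_nonneg (|ξ i| - |ξ l|), sq_abs (ξ i), sq_abs (ξ l)]
          calc |pd i (pd l (mg d s)) y| * (|ξ i| * |ξ l|) ≤ A0 * ((ξ i ^ 2 + ξ l ^ 2) / 2) :=
                mul_le_mul h5 h7 (by positivity) hA0.le
            _ = A0 * (ξ i ^ 2 + ξ l ^ 2) / 2 := by ring
        exact (abs_le.1 h6).1
      have h8 : ∑ i : Fin 3, ∑ l : Fin 3, -(A0 * (ξ i ^ 2 + ξ l ^ 2) / 2) ≤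
          ∑ i, ∑ l, pd i (pd l (mg d s)) y * ξ i * ξ l :=
        Finset.sum_le_sum fun i _ => Finset.sum_le_sum fun l _ => h4 i l
      refine le_trans ?_ h8
      have h9 : ∑ i : Fin 3, ∑ l : Fin 3, -(A0 * (ξ i ^ 2 + ξ l ^ 2) / 2) =
          -(3 * A0 * ∑ i, ξ i ^ 2) := by
        simp only [Fin.sum_univ_three]
        ring
      rw [h9]
      have h10 : 3 * A0 * ∑ i, ξ i ^ 2 ≤ A * ∑ i, ξ i ^ 2 :=
        mul_le_mul_of_nonneg_right (by rw [hA]; nlinarith) hS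
      linarith
    · have h3 := (h2 d s y hs hd (by linarith)).2.1
      have hρ0 : 0 < Real.sqrt (nr y ^ 2 + s ^ 2) := hrho y
      have hρ2 := hrho2 y
      have e : ∑ i, ∑ l, pd i (pd l (mg d s)) y * ξ i * ξ l =
          (∑ i, ξ i ^ 2) / Real.sqrt (nr y ^ 2 + s ^ 2) -
            (y 0 * ξ 0 + y 1 * ξ 1 + y 2 * ξ 2) ^ 2 / Real.sqrt (nr y ^ 2 + s ^ 2) ^ 3 := by
        simp only [Fin.sum_univ_three, h3]
        simp
        ring
      rw [e]
      set ρ := Real.sqrt (nr y ^ 2 + s ^ 2) with hρ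
      have h5 : (y 0 * ξ 0 + y 1 * ξ 1 + y 2 * ξ 2) ^ 2 ≤ ρ ^ 2 * ∑ i, ξ i ^ 2 := by
        rw [hρ2, mgb_sq, Fin.sum_univ_three]
        nlinarith [sq_nonneg (y 0 * ξ 1 - y 1 * ξ 0), sq_nonneg (y 0 * ξ 2 - y 2 * ξ 0),
          sq_nonneg (y 1 * ξ 2 - y 2 * ξ 1), mul_nonneg (sq_nonneg s) (sq_nonneg (ξ 0)),
          mul_nonneg (sq_nonneg s) (sq_nonneg (ξ 1)), mul_nonneg (sq_nonneg s) (sq_nonneg (ξ 2))]
      have h6 : (y 0 * ξ 0 + y 1 * ξ 1 + y 2 * ξ 2) ^ 2 / ρ ^ 3 ≤ (∑ i, ξ i ^ 2) / ρ := by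
        rw [div_le_div_iff₀ (by positivity) hρ0]
        nlinarith [mul_le_mul_of_nonneg_right h5 hρ0.le]
      have h7 : 0 ≤ A * ∑ i, ξ i ^ 2 := mul_nonneg hAp.le hS
      linarith
  · intro y
    rcases le_or_gt (d / 2) (nr y) with h' | h'
    · rw [if_pos h']
      have hr : 0 < nr y := by linarith
      have h3 := mgb_mor hd hs h'
      have h4 : |lap (lap (mg d s)) y| ≤ A0 * d * (1 / nr y) := by
        rcases le_or_gt (nr y) d with h5 | h5
        · refine ((hCP s y hs hsd h').2.2).trans ?_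
          rw [mul_one_div, le_div_iff₀ hr]
          exact mul_le_mul_of_nonneg_left h5 hA0.le
        · rw [(mgb_lap0 (mgb_lap0 (mgb_ev hd h5))).eq_of_nhds]
          simp only [Pi.zero_apply, abs_zero]
          positivity
      have h6 : (30 / d ^ 2 + A0 * d) * (1 / nr y) ≤ A * (1 / nr y) :=
        mul_le_mul_of_nonneg_right (by rw [hA]; nlinarith) (by positivity)
      have h7 : 0 ≤ A0 * d * (1 / nr y) := by positivity
      rw [abs_le] at h4
      nlinarith [h4.1, h4.2]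
    · rw [if_neg (not_le.2 h'), (h2 d s y hs hd (by linarith)).2.2]
      linarith

end Pool.Agent.Helper95.PW
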